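import Pool.Agent.TH219.DL.Bridge
import Pool.Agent.H349R2.Tet.Final3

/-!
# The density of a double lattice packing is at most twice the lattice packing density
-/

set_option autoImplicit false

namespace Pool.Agent.K4H61.LS

open MeasureTheory Filter Topology
open scoped ENNReal
open Pool.Agent.TH219.DL
open Pool.Agent.H349R2.Tet

/-- the upper limit of a sum is at most the sum of the upper limits -/
theorem ls_add (u v : ℝ → ℝ≥0∞) : Filter.limsup (fun r => u r + v r) atTop
    ≤ Filter.limsup u atTop + Filter.limsup v atTop := by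
  by_cases h : Filter.limsup u atTop + Filter.limsup v atTop = ⊤
  · rw [h]; exact le_top
  have hu : Filter.limsup u atTop ≠ ⊤ := (ENNReal.add_ne_top.1 h).1
  have hv : Filter.limsup v atTop ≠ ⊤ := (ENNReal.add_ne_top.1 h).2
  refine ENNReal.le_of_forall_pos_le_add fun ε hε _ => ?_
  have hε' : (ε : ℝ≥0∞) / 2 ≠ 0 := by
    have : (ε : ℝ≥0∞) ≠ 0 := by exact_mod_cast hε.ne'
    exact (ENNReal.div_pos this (by norm_num)).ne'
  have h1 : ∀ᶠ r in (atTop : Filter ℝ), u r < Filter.limsup u atTop + (ε : ℝ≥0∞) / 2 :=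
    eventually_lt_of_limsup_lt (ENNReal.lt_add_right hu hε')
  have h2 : ∀ᶠ r in (atTop : Filter ℝ), v r < Filter.limsup v atTop + (ε : ℝ≥0∞) / 2 :=
    eventually_lt_of_limsup_lt (ENNReal.lt_add_right hv hε')
  refine limsup_le_of_le (by isBoundedDefault) ?_
  filter_upwards [h1, h2] with r a b
  calc u r + v r ≤ (Filter.limsup u atTop + (ε : ℝ≥0∞) / 2)
        + (Filter.limsup v atTop + (ε : ℝ≥0∞) / 2) := add_le_add a.le b.le
    _ = _ := by rw [add_add_add_comm, ENNReal.add_halves]

/-- the density of a double lattice family is at most the sum of the densities of its two parts -/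
theorem den_famLs_le (K : Set V) (v : V) (b : Fin 3 → V) :
    den K (famLs v b) ≤ dens K b + dens (rfl' K v) b := by
  unfold den dens
  refine le_trans (limsup_le_limsup (v := (fun r : ℝ =>
      (∑' u : lat b, volume (tr K u.1 ∩ Bl r)) / volume (Bl r))
      + fun r : ℝ => (∑' u : lat b, volume (tr (rfl' K v) u.1 ∩ Bl r)) / volume (Bl r)) ?_ ?_ ?_)
      (ls_add _ _)
  · apply Filter.Eventually.of_forall
    intro r
    show _ ≤ (∑' u : lat b, volume (tr K u.1 ∩ Bl r)) / volume (Bl r)
      + (∑' u : lat b, volume (tr (rfl' K v) u.1 ∩ Bl r)) / volume (Bl r)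
    rw [← ENNReal.add_div]
    apply ENNReal.div_le_div_right
    let f : lat b ⊕ lat b → famLs v b := fun s =>
      match s with
      | Sum.inl u => ⟨(false, u.1), Or.inl ⟨rfl, u.2⟩⟩
      | Sum.inr u => ⟨(true, v + u.1), Or.inr ⟨rfl, u.1, u.2, rfl⟩⟩
    have hsurj : Function.Surjective f := by
      rintro ⟨⟨s, c⟩, hp⟩
      rcases hp with ⟨hs, hc⟩ | ⟨hs, u, hu, hc⟩
      · have hs : s = false := hs
        subst hs
        exact ⟨Sum.inl ⟨c, hc⟩, rfl⟩
      · have hs : s = true := hs
        subst hs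
        have hc : c = v + u := hc
        subst hc
        exact ⟨Sum.inr ⟨u, hu⟩, rfl⟩
    have e1 : ∀ u : lat b, volume (mem K (f (Sum.inl u)).1 ∩ Bl r)
        = volume (tr K u.1 ∩ Bl r) := by
      intro u
      show volume (mem K (false, u.1) ∩ Bl r) = _
      rw [mem_false]
    have e2 : ∀ u : lat b, volume (mem K (f (Sum.inr u)).1 ∩ Bl r)
        = volume (tr (rfl' K v) u.1 ∩ Bl r) := by
      intro u
      show volume (mem K (true, v + u.1) ∩ Bl r) = _
      rw [mem_true]
    calc ∑' p : famLs v b, volume (mem K p.1 ∩ Bl r)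
        ≤ ∑' s : lat b ⊕ lat b, volume (mem K (f s).1 ∩ Bl r) := by
          obtain ⟨g, hg⟩ := hsurj.hasRightInverse
          have hginj : Function.Injective g := fun x y h => by
            rw [← hg x, ← hg y, h]
          calc ∑' p : famLs v b, volume (mem K p.1 ∩ Bl r)
              = ∑' p : famLs v b, volume (mem K (f (g p)).1 ∩ Bl r) :=
                tsum_congr fun p => by rw [hg p]
            _ ≤ _ := ENNReal.tsum_comp_le_tsum_of_injective hginj
                (fun s => volume (mem K (f s).1 ∩ Bl r))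
      _ = (∑' u : lat b, volume (tr K u.1 ∩ Bl r))
          + ∑' u : lat b, volume (tr (rfl' K v) u.1 ∩ Bl r) := by
          rw [Summable.tsum_sum (f := fun s => volume (mem K (f s).1 ∩ Bl r))
            ENNReal.summable ENNReal.summable, tsum_congr e1, tsum_congr e2]
  · exact Filter.isCobounded_le_of_bot
  · exact Filter.isBounded_le_of_top

/-- `δ_{L*} ≤ 2 δ_L` -/
theorem dLs_le {K : Set V} (hK : IsCompact K) : dLs K ≤ 2 * dL K := by
  unfold dLs
  refine iSup_le fun v => iSup₂_le fun b hb => ?_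
  have hpk : LinearIndependent ℝ b ∧ IsPack K (famL b) := by
    refine ⟨hb.1, fun p hp q hq hpq => hb.2 p (Or.inl hp) q (Or.inl hq) hpq⟩
  have h1 : dens K b ≤ dL K := by
    rw [← den_famL]
    exact le_iSup₂_of_le b hpk le_rfl
  have h2 : dens (rfl' K v) b = dens K b := by
    rw [dens_eq b hb.1 _ (rfl_compact hK v), dens_eq b hb.1 _ hK, vol_rfl hK.measurableSet]
  calc den K (famLs v b) ≤ dens K b + dens (rfl' K v) b := den_famLs_le K v b
    _ = 2 * dens K b := by rw [h2, two_mul]
    _ ≤ 2 * dL K := by gcongr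

/-- the minimum of `δ_L` is smaller than `18/49` -/
theorem mn_dL_le : mn dL ≤ ENNReal.ofReal (18 / 49 * (1 - 3 / 10 ^ 17)) := by
  obtain ⟨c, hc⟩ : ∃ c : ℝ, c = 1 / 10 ^ 15 := ⟨_, rfl⟩
  have hc0 : 0 < c := by rw [hc]; positivity
  have hc2 : c ≤ 1 / 100 := by rw [hc]; norm_num
  have hB : Body (K c) := ⟨K_compact c, K_convex c hc0.le, K_interior c hc0 hc2⟩
  refine (iInf₂_le (K c) hB).trans ?_
  rw [dL_eq]
  refine (deltaL_K' c _ hc0 hc.le rfl).trans (ENNReal.ofReal_le_ofReal ?_)
  have h1 : 3 / 10 ^ 15 ≤ 4 * c / (1 + 9 * c) := by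
    rw [hc]; norm_num
  nlinarith

/-- the minimum of `δ_{L*}` is at most twice the minimum of `δ_L` -/
theorem mn_dLs_le_two : mn dLs ≤ 2 * mn dL := by
  unfold mn
  rw [ENNReal.mul_iInf_of_ne (by norm_num) (by norm_num)]
  refine le_iInf fun K => ?_
  by_cases hK : Body K
  · refine (iInf₂_le K hK).trans ?_
    simp only [hK, iInf_pos]
    exact dLs_le hK.1
  · simp [hK]

/-- the minimum of `δ_{L*}` is smaller than `36/49` -/
theorem mn_dLs_le : mn dLs ≤ ENNReal.ofReal (36 / 49 * (1 - 3 / 10 ^ 17)) := by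
  refine mn_dLs_le_two.trans ?_
  have e2 : (2 : ℝ≥0∞) = ENNReal.ofReal 2 := by simp
  calc 2 * mn dL ≤ 2 * ENNReal.ofReal (18 / 49 * (1 - 3 / 10 ^ 17)) := by
        gcongr; exact mn_dL_le
    _ = ENNReal.ofReal (36 / 49 * (1 - 3 / 10 ^ 17)) := by
        rw [e2, ← ENNReal.ofReal_mul (by norm_num)]
        congr 1
        ring

end Pool.Agent.K4H61.LS
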