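import Pool.Agent.K4H61.LS.Lower
import Pool.Agent.K4H61.LS.Upper

/-!
# Comparison with circumscribed bodies
-/

set_option autoImplicit false

namespace Pool.Agent.K4H61.LS

open MeasureTheory Filter Topology
open scoped ENNReal
open Pool.Agent.TH219.DL
open Pool.Agent.H349R2.Tet
open Pool.Agent.R167.CL

/-- a packing of `M` is a packing of every body in `M` -/
theorem Dl_mono {c : ℝ} (hc : 0 ≤ c) {K M : Set V} (h : Dl c M) (hKM : K ⊆ M)
    (hK : IsCompact K) (hM : IsCompact M) (hMp : volume M ≠ 0) :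
    Dl (c * ((volume K).toReal / (volume M).toReal)) K := by
  obtain ⟨v, b, h1, h2, h3, h4⟩ := h
  have hMt : volume M ≠ ⊤ := hM.measure_ne_top
  have hKt : volume K ≠ ⊤ := hK.measure_ne_top
  have hMr : 0 < (volume M).toReal := ENNReal.toReal_pos hMp hMt
  refine ⟨v, b, h1, ?_, ?_, ?_⟩
  · have h5 : c * |dt b| ≤ 2 * (volume M).toReal := by
      have := ENNReal.toReal_mono (ENNReal.mul_ne_top (by norm_num) hMt) h2
      rwa [ENNReal.toReal_ofReal (by positivity), ENNReal.toReal_mul, ENNReal.toReal_ofNat] at this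
    have h6 : c * ((volume K).toReal / (volume M).toReal) * |dt b| ≤ 2 * (volume K).toReal := by
      have e : c * ((volume K).toReal / (volume M).toReal) * |dt b|
          = c * |dt b| * ((volume K).toReal / (volume M).toReal) := by ring
      rw [e]
      calc c * |dt b| * ((volume K).toReal / (volume M).toReal)
          ≤ 2 * (volume M).toReal * ((volume K).toReal / (volume M).toReal) := by
            gcongr
        _ = 2 * (volume K).toReal := by field_simp
    calc ENNReal.ofReal (c * ((volume K).toReal / (volume M).toReal) * |dt b|)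
        ≤ ENNReal.ofReal (2 * (volume K).toReal) := ENNReal.ofReal_le_ofReal h6
      _ = 2 * volume K := by
        rw [ENNReal.ofReal_mul (by norm_num), ENNReal.ofReal_toReal hKt]
        simp
  · rintro s hs hs0 ⟨x, hx, hxs⟩
    exact h3 s hs hs0 ⟨x, interior_mono hKM hx, interior_mono hKM hxs⟩
  · intro s hs
    refine (h4 s hs).mono (interior_mono hKM) (interior_mono ?_)
    unfold tr rfl'
    exact Set.image_mono (Set.image_mono hKM)

theorem enn_aux {a b : ℝ≥0∞} (ha : a ≠ ⊤) (hb : b ≠ ⊤) (hb0 : b ≠ 0) {c l : ℝ} (hc : 0 ≤ c)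
    (hl : 0 < l) : ENNReal.ofReal c * a
      = ENNReal.ofReal (c * (a.toReal / (l * b.toReal))) * (ENNReal.ofReal l * b) := by
  obtain ⟨x, hx0, rfl⟩ : ∃ x : ℝ, 0 ≤ x ∧ ENNReal.ofReal x = a :=
    ⟨a.toReal, ENNReal.toReal_nonneg, ENNReal.ofReal_toReal ha⟩
  obtain ⟨y, hy0, rfl⟩ : ∃ y : ℝ, 0 ≤ y ∧ ENNReal.ofReal y = b :=
    ⟨b.toReal, ENNReal.toReal_nonneg, ENNReal.ofReal_toReal hb⟩
  have hy : 0 < y := by
    rcases hy0.lt_or_eq with h | h
    · exact h
    · exact absurd (by rw [← h]; simp) hb0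
  rw [ENNReal.toReal_ofReal hx0, ENNReal.toReal_ofReal hy0, ← ENNReal.ofReal_mul hc,
    ← ENNReal.ofReal_mul hl.le, ← ENNReal.ofReal_mul (by positivity)]
  congr 1
  field_simp

/-- comparison with a circumscribed body -/
theorem mul_vol_le {c : ℝ} (hc : 0 ≤ c) {K M : Set V} (h : Dl c M)
    (hKM : K ⊆ M) (hK : Body K) (hM : IsCompact M) :
    ENNReal.ofReal c * volume K ≤ dLs K * volume M := by
  have hMt : volume M ≠ ⊤ := hM.measure_ne_top
  have hKt : volume K ≠ ⊤ := hK.1.measure_ne_top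
  have hKp : volume K ≠ 0 :=
    (lt_of_lt_of_le (isOpen_interior.measure_pos volume hK.2.2)
      (measure_mono interior_subset)).ne'
  have hMp : volume M ≠ 0 := fun h0 => hKp (measure_mono_null hKM h0)
  have hMr : 0 < (volume M).toReal := ENNReal.toReal_pos hMp hMt
  have h1 := Dl_dLs (by positivity) hK.1 hK.2.1 (Dl_mono hc h hKM hK.1 hM hMp)
  calc ENNReal.ofReal c * volume K
      = ENNReal.ofReal (c * ((volume K).toReal / (volume M).toReal)) * volume M := by
        have := enn_aux hKt hMt hMp hc one_pos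
        simpa using this
    _ ≤ dLs K * volume M := by gcongr

/-- columns over a double lattice packing of the shadow -/
theorem Dl_chord {K : Set V} (hK : Body K) {l : ℝ} (hl : 0 < l)
    (hmax : ∀ x ∈ K, ∀ t : ℝ, x + ![t, 0, 0] ∈ K → t ≤ l) :
    Dl (3 / 4 * ((volume K).toReal / (l * (volume (pr '' K)).toReal))) K := by
  obtain ⟨hKc, hc, hne⟩ := hK
  have hPc := shadow_compact hKc
  have hPi := shadow_interior hne
  have hPpos : 0 < volume (G K 0) :=
    lt_of_lt_of_le (isOpen_interior.measure_pos volume hPi) (measure_mono interior_subset)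
  have ha0 : 0 < (volume (G K 0)).toReal := ENNReal.toReal_pos hPpos.ne' hPc.measure_ne_top
  have hKt : volume K ≠ ⊤ := hKc.measure_ne_top
  obtain ⟨u, w, y, hD0, hD0le, hpk, hho⟩ := t_PLANE t_AREA (G K 0) hPc (shadow_convex hc) hPi
  obtain ⟨v, b, hb1, hb2, hb3⟩ := t_SPACE K hKc hc hne l hl (fun x c hc0 hx => by
    obtain ⟨t, ht1, ht2⟩ := hx
    refine hmax _ ht1 c ?_
    have e : cs t x + ![c, 0, 0] = cs (t + c) x := by
      funext i
      fin_cases i
      · rfl
      · show x 0 + 0 = x 0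
        ring
      · show x 1 + 0 = x 1
        ring
    rw [e]; exact ht2) u w y hD0 hpk hho
  rw [← G_zero]
  refine ⟨v, b, by rw [hb1]; positivity, ?_, hb2, hb3⟩
  have h1 : u 0 * w 1 - u 1 * w 0 ≤ 8 / 3 * (volume (G K 0)).toReal := by
    have := ENNReal.toReal_mono (ENNReal.mul_ne_top ENNReal.ofReal_ne_top hPc.measure_ne_top) hD0le
    rwa [ENNReal.toReal_ofReal hD0.le, ENNReal.toReal_mul,
      ENNReal.toReal_ofReal (by norm_num)] at this
  calc ENNReal.ofReal (3 / 4 * ((volume K).toReal / (l * (volume (G K 0)).toReal)) * |dt b|)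
      ≤ ENNReal.ofReal (2 * (volume K).toReal) := by
        apply ENNReal.ofReal_le_ofReal
        rw [hb1, abs_of_pos (by positivity)]
        have e : 3 / 4 * ((volume K).toReal / (l * (volume (G K 0)).toReal))
            * (l * (u 0 * w 1 - u 1 * w 0))
            = (volume K).toReal * (3 / 4 * (u 0 * w 1 - u 1 * w 0)) / (volume (G K 0)).toReal := by
          field_simp
        rw [e, div_le_iff₀ ha0]
        have h2 : 0 ≤ (volume K).toReal := ENNReal.toReal_nonneg
        nlinarith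
    _ = 2 * volume K := by
        rw [ENNReal.ofReal_mul (by norm_num), ENNReal.ofReal_toReal hKt]
        simp

/-- the density, the longest chord and the shadow -/
theorem chord_le {K : Set V} (hK : Body K) (L : V ≃ₗ[ℝ] V) {l : ℝ} (hl : 0 < l)
    (hmax : ∀ x ∈ L '' K, ∀ t : ℝ, x + ![t, 0, 0] ∈ L '' K → t ≤ l) :
    ENNReal.ofReal (3 / 4) * volume (L '' K) ≤ dLs K * (ENNReal.ofReal l
      * volume (pr '' (L '' K))) := by
  have hK' : Body (L '' K) := by
    refine ⟨hK.1.image (LinearMap.continuous_of_finiteDimensional (L : V →ₗ[ℝ] V)),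
      hK.2.1.linear_image L.toLinearMap, ?_⟩
    have e : L '' K = (fun x => L x + 0) '' K := by simp
    rw [e, pack_interior_image]
    exact hK.2.2.image _
  have hPc := shadow_compact hK'.1
  have hPi := shadow_interior hK'.2.2
  rw [G_zero] at hPc hPi
  have hPpos : 0 < volume (pr '' (L '' K)) :=
    lt_of_lt_of_le (isOpen_interior.measure_pos volume hPi) (measure_mono interior_subset)
  have ha0 : 0 < (volume (pr '' (L '' K))).toReal :=
    ENNReal.toReal_pos hPpos.ne' hPc.measure_ne_top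
  have hKt : volume (L '' K) ≠ ⊤ := hK'.1.measure_ne_top
  have h1 := Dl_image (Dl_chord hK' hl hmax) L.symm 0
  have e : (fun x => L.symm x + 0) '' (L '' K) = K := by
    rw [Set.image_image]; simp
  rw [e] at h1
  have h2 := Dl_dLs (by positivity) hK.1 hK.2.1 h1
  calc ENNReal.ofReal (3 / 4) * volume (L '' K)
      = ENNReal.ofReal (3 / 4 * ((volume (L '' K)).toReal
          / (l * (volume (pr '' (L '' K))).toReal)))
        * (ENNReal.ofReal l * volume (pr '' (L '' K))) :=
        enn_aux hKt hPc.measure_ne_top hPpos.ne' (by norm_num) hl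
    _ ≤ _ := by gcongr

/-- comparison with a circumscribed body -/
theorem vol_le_of_Dl {c B : ℝ} (hc : 0 < c) (hB : 0 ≤ B) {K M : Set V} (h : Dl c M)
    (hKM : K ⊆ M) (hK : Body K) (hM : IsCompact M) (hd : dLs K ≤ ENNReal.ofReal B) :
    volume K ≤ ENNReal.ofReal (B / c) * volume M := by
  have hMt : volume M ≠ ⊤ := hM.measure_ne_top
  have hKt : volume K ≠ ⊤ := hK.1.measure_ne_top
  have hKp : volume K ≠ 0 := by
    have := hK.2.2
    exact (lt_of_lt_of_le (isOpen_interior.measure_pos volume this)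
      (measure_mono interior_subset)).ne'
  have hMp : volume M ≠ 0 := by
    intro h0
    exact hKp (measure_mono_null hKM h0)
  have hMr : 0 < (volume M).toReal := ENNReal.toReal_pos hMp hMt
  have h1 := Dl_dLs (by positivity) hK.1 hK.2.1 (Dl_mono hc.le h hKM hK.1 hM hMp)
  have h2 : c * ((volume K).toReal / (volume M).toReal) ≤ B :=
    (ENNReal.ofReal_le_ofReal_iff hB).1 (h1.trans hd)
  have h3 : (volume K).toReal ≤ B / c * (volume M).toReal := by
    rw [← mul_div_assoc, div_le_iff₀ hMr] at h2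
    rw [div_mul_eq_mul_div, le_div_iff₀ hc]
    linarith
  calc volume K = ENNReal.ofReal (volume K).toReal := (ENNReal.ofReal_toReal hKt).symm
    _ ≤ ENNReal.ofReal (B / c * (volume M).toReal) := ENNReal.ofReal_le_ofReal h3
    _ = ENNReal.ofReal (B / c) * volume M := by
      rw [ENNReal.ofReal_mul (by positivity), ENNReal.ofReal_toReal hMt]

/-! ### affine images -/

/-- `A` is an affine image of `M` -/
def Aff (M A : Set V) : Prop := ∃ (L : V ≃ₗ[ℝ] V) (p : V), A = (fun x => L x + p) '' M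

theorem Dl_aff {c : ℝ} {M A : Set V} (h : Dl c M) (hA : Aff M A) : Dl c A := by
  obtain ⟨L, p, rfl⟩ := hA
  exact Dl_image h L p

theorem Aff_compact {M A : Set V} (h : IsCompact M) (hA : Aff M A) : IsCompact A := by
  obtain ⟨L, p, rfl⟩ := hA
  exact h.image ((LinearMap.continuous_of_finiteDimensional (L : V →ₗ[ℝ] V)).add continuous_const)

theorem Aff_convex {M A : Set V} (h : Convex ℝ M) (hA : Aff M A) : Convex ℝ A := by
  obtain ⟨L, p, rfl⟩ := hA
  rintro _ ⟨x, hx, rfl⟩ _ ⟨y, hy, rfl⟩ a b ha hb hab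
  refine ⟨a • x + b • y, h hx hy ha hb hab, ?_⟩
  have e : p = a • p + b • p := by rw [← add_smul, hab, one_smul]
  simp only [map_add, map_smul, smul_add]
  nth_rewrite 1 [e]
  abel

theorem Aff_interior {M A : Set V} (h : (interior M).Nonempty) (hA : Aff M A) :
    (interior A).Nonempty := by
  obtain ⟨L, p, rfl⟩ := hA
  rw [pack_interior_image]
  exact h.image _

theorem Aff_body {M A : Set V} (h : Body M) (hA : Aff M A) : Body A :=
  ⟨Aff_compact h.1 hA, Aff_convex h.2.1 hA, Aff_interior h.2.2 hA⟩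

/-! ### the unit ball, the unit cube, the triangular prism -/

theorem Bl_one : Aff (Bl (√2 / 2)) (Bl 1) := by
  have h2 : (√2 : ℝ) ≠ 0 := by positivity
  refine ⟨LinearEquiv.smulOfNeZero ℝ V √2 h2, 0, ?_⟩
  have hs : (√2 : ℝ) ^ 2 = 2 := Real.sq_sqrt (by norm_num)
  ext x
  constructor
  · intro hx
    have hx : x 0 ^ 2 + x 1 ^ 2 + x 2 ^ 2 ≤ (1 : ℝ) ^ 2 := hx
    refine ⟨(√2)⁻¹ • x, ?_, ?_⟩
    · show ((√2)⁻¹ * x 0) ^ 2 + ((√2)⁻¹ * x 1) ^ 2 + ((√2)⁻¹ * x 2) ^ 2 ≤ (√2 / 2) ^ 2
      rw [mul_pow, mul_pow, mul_pow, inv_pow, div_pow, hs]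
      linarith
    · simp only [LinearEquiv.smulOfNeZero_apply, add_zero]
      rw [smul_smul, mul_inv_cancel₀ h2, one_smul]
  · rintro ⟨y, hy, rfl⟩
    have hy : y 0 ^ 2 + y 1 ^ 2 + y 2 ^ 2 ≤ (√2 / 2) ^ 2 := hy
    simp only [LinearEquiv.smulOfNeZero_apply, add_zero]
    show (√2 * y 0) ^ 2 + (√2 * y 1) ^ 2 + (√2 * y 2) ^ 2 ≤ 1 ^ 2
    rw [div_pow, hs] at hy
    rw [mul_pow, mul_pow, mul_pow, hs]
    linarith

theorem Dl_ball1 : Dl (Real.pi * √2 / 6) (Bl 1) := Dl_aff Dl_ball Bl_one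

theorem ball_body : Body (Bl 1) := by
  refine ⟨Bl_compact 1 zero_le_one, Bl_convex 1 zero_le_one, ⟨0, ?_⟩⟩
  rw [Bl_interior 1 one_pos]
  show (0 : ℝ) ^ 2 + 0 ^ 2 + 0 ^ 2 < 1 ^ 2
  norm_num

/-- the unit cube -/
def Cube : Set V := {x | ∀ i, 0 ≤ x i ∧ x i ≤ 1}

/-- half of the unit cube: a triangular prism -/
def Prism : Set V := {x | (∀ i, 0 ≤ x i ∧ x i ≤ 1) ∧ x 1 + x 2 ≤ 1}

theorem Cube_eq : Cube = Set.Icc 0 1 := by
  ext x
  constructor
  · intro h; exact ⟨fun i => (h i).1, fun i => (h i).2⟩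
  · rintro ⟨h1, h2⟩ i; exact ⟨h1 i, h2 i⟩

theorem Cube_compact : IsCompact Cube := by rw [Cube_eq]; exact isCompact_Icc

theorem Cube_volume : volume Cube = 1 := by
  rw [Cube_eq, Real.volume_Icc_pi]
  simp

theorem Cube_interior : interior Cube = {x | ∀ i, 0 < x i ∧ x i < 1} := by
  have e : Cube = Set.univ.pi fun _ : Fin 3 => Set.Icc (0 : ℝ) 1 := by
    ext x
    exact ⟨fun h i _ => h i, fun h i => h i trivial⟩
  rw [e, interior_pi_set Set.finite_univ]
  ext x
  simp [Set.mem_pi, interior_Icc]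

theorem Prism_compact : IsCompact Prism := by
  have e : Prism = Cube ∩ {x | x 1 + x 2 ≤ 1} := rfl
  rw [e]
  exact Cube_compact.inter_right (isClosed_le
    ((continuous_apply 1).add (continuous_apply 2)) continuous_const)

theorem Prism_interior : interior Prism ⊆ {x | (∀ i, 0 < x i ∧ x i < 1) ∧ x 1 + x 2 < 1} := by
  intro x hx
  have h1 : x ∈ interior Cube := interior_mono (fun y hy => hy.1) hx
  rw [Cube_interior] at h1
  refine ⟨h1, ?_⟩
  by_contra hcon
  push Not at hcon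
  have h2 : x 1 + x 2 = 1 := le_antisymm (interior_subset hx).2 hcon
  rw [mem_interior_iff_mem_nhds, Metric.mem_nhds_iff] at hx
  obtain ⟨ε, hε, hb⟩ := hx
  have h3 : x + ![0, ε / 2, 0] ∈ Metric.ball x ε := by
    rw [mem_ball_iff_norm, add_sub_cancel_left, pi_norm_lt_iff hε]
    intro i
    fin_cases i
    · simpa using hε
    · simp [abs_of_pos hε]
      linarith
    · simpa using hε
  have h4 := (hb h3).2
  have e1 : (x + ![0, ε / 2, 0]) 1 = x 1 + ε / 2 := by simp
  have e2 : (x + ![0, ε / 2, 0]) 2 = x 2 := by simp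
  rw [e1, e2] at h4
  linarith

/-- the second half of the unit cube -/
theorem Prism_volume : 2 * volume Prism ≥ 1 := by
  have h1 : Cube ⊆ Prism ∪ (fun x => ![1, 1, 1] - x) ⁻¹' Prism := by
    intro x hx
    by_cases h : x 1 + x 2 ≤ 1
    · exact Or.inl ⟨hx, h⟩
    · right
      refine ⟨fun i => ?_, ?_⟩
      · have := hx i
        fin_cases i
        · show 0 ≤ 1 - x 0 ∧ 1 - x 0 ≤ 1
          exact ⟨by linarith [(hx 0).2], by linarith [(hx 0).1]⟩
        · show 0 ≤ 1 - x 1 ∧ 1 - x 1 ≤ 1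
          exact ⟨by linarith [(hx 1).2], by linarith [(hx 1).1]⟩
        · show 0 ≤ 1 - x 2 ∧ 1 - x 2 ≤ 1
          exact ⟨by linarith [(hx 2).2], by linarith [(hx 2).1]⟩
      · show (1 - x 1) + (1 - x 2) ≤ 1
        linarith
  have h2 : volume ((fun x : V => ![1, 1, 1] - x) ⁻¹' Prism) = volume Prism := by
    have := (Measure.measurePreserving_sub_left (volume : Measure V) (![1, 1, 1] : V))
    exact this.measure_preimage Prism_compact.measurableSet.nullMeasurableSet
  calc (1 : ℝ≥0∞) = volume Cube := Cube_volume.symm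
    _ ≤ volume (Prism ∪ (fun x => ![1, 1, 1] - x) ⁻¹' Prism) := measure_mono h1
    _ ≤ volume Prism + volume ((fun x : V => ![1, 1, 1] - x) ⁻¹' Prism) := measure_union_le _ _
    _ = 2 * volume Prism := by rw [h2, two_mul]

/-- an integer and a real interval -/
theorem int_zero {z : ℤ} {a b : ℝ} (ha0 : 0 < a) (ha1 : a < 1) (hb0 : 0 < b) (hb1 : b < 1)
    (h : a - b = z) : z = 0 := by
  have h1 : (z : ℝ) < 1 := by linarith
  have h2 : (-1 : ℝ) < z := by linarith
  have h3 : z < 1 := by exact_mod_cast h1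
  have h4 : -1 < z := by exact_mod_cast h2
  omega

theorem Dl_prism : Dl 1 Prism := by
  have hdt : dt ![![1, 0, 0], ![0, 1, 0], ![0, 0, 1]] = 1 := by
    unfold dt
    rw [Matrix.det_fin_three]
    simp
  have hc : ∀ (z : Fin 3 → ℤ) (i : Fin 3),
      (∑ i, (z i : ℝ) • (![![1, 0, 0], ![0, 1, 0], ![0, 0, 1]] : Fin 3 → V) i) i = z i := by
    intro z i
    fin_cases i <;> simp [Fin.sum_univ_three]
  refine ⟨![1, 1, 1], ![![1, 0, 0], ![0, 1, 0], ![0, 0, 1]], by rw [hdt]; norm_num, ?_, ?_, ?_⟩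
  · rw [hdt]
    simpa using Prism_volume
  · rintro s ⟨z, rfl⟩ hs0 ⟨x, hx, hxs⟩
    apply hs0
    have hx' := (Prism_interior hx).1
    have hxs' := (Prism_interior hxs).1
    funext i
    rw [hc z i]
    have h1 := hx' i
    have h2 := hxs' i
    rw [Pi.sub_apply, hc z i] at h2
    have := int_zero (z := z i) h1.1 h1.2 h2.1 h2.2 (by ring)
    simp [this]
  · rintro s ⟨z, rfl⟩
    rw [Set.disjoint_left]
    intro X hX hX'
    have hpre : interior (tr (rfl' Prism ![1, 1, 1])
        (∑ i, (z i : ℝ) • (![![1, 0, 0], ![0, 1, 0], ![0, 0, 1]] : Fin 3 → V) i))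
        = mem (interior Prism) (true, ![1, 1, 1] +
          (∑ i, (z i : ℝ) • (![![1, 0, 0], ![0, 1, 0], ![0, 0, 1]] : Fin 3 → V) i)) := by
      rw [← mem_true, interior_mem]
    rw [hpre] at hX'
    obtain ⟨y, hy, hyX⟩ := hX'
    simp only [if_true] at hyX
    have hX1 := Prism_interior hX
    have hy1 := Prism_interior hy
    have hXe : ∀ i, X i + y i = 1 + z i := by
      intro i
      rw [← hyX, Pi.add_apply, Pi.add_apply, hc z i, Pi.neg_apply]
      have : (![1, 1, 1] : V) i = 1 := by fin_cases i <;> rfl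
      rw [this]
      ring
    have hz : ∀ i, z i = 0 := by
      intro i
      have h1 := hX1.1 i
      have h2 := hy1.1 i
      have h3 := hXe i
      exact int_zero (a := X i) (b := 1 - y i) h1.1 h1.2 (by linarith) (by linarith) (by linarith)
    have e1 := hXe 1
    have e2 := hXe 2
    rw [hz 1] at e1
    rw [hz 2] at e2
    have h5 := hX1.2
    have h6 := hy1.2
    push_cast at e1 e2
    linarith

theorem Dl_cube : Dl 1 Cube := by
  have hdt : dt ![![2, 0, 0], ![0, 1, 0], ![0, 0, 1]] = 2 := by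
    unfold dt
    rw [Matrix.det_fin_three]
    simp
  have hc0 : ∀ (z : Fin 3 → ℤ),
      (∑ i, (z i : ℝ) • (![![2, 0, 0], ![0, 1, 0], ![0, 0, 1]] : Fin 3 → V) i) 0
        = ((2 * z 0 : ℤ) : ℝ) := by
    intro z
    simp [Fin.sum_univ_three]
    ring
  have hc1 : ∀ (z : Fin 3 → ℤ),
      (∑ i, (z i : ℝ) • (![![2, 0, 0], ![0, 1, 0], ![0, 0, 1]] : Fin 3 → V) i) 1 = z 1 := by
    intro z
    simp [Fin.sum_univ_three]
  have hc2 : ∀ (z : Fin 3 → ℤ),
      (∑ i, (z i : ℝ) • (![![2, 0, 0], ![0, 1, 0], ![0, 0, 1]] : Fin 3 → V) i) 2 = z 2 := by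
    intro z
    simp [Fin.sum_univ_three]
  refine ⟨![2, 1, 1], ![![2, 0, 0], ![0, 1, 0], ![0, 0, 1]], by rw [hdt]; norm_num, ?_, ?_, ?_⟩
  · rw [hdt, Cube_volume]
    simp
  · rintro s ⟨z, rfl⟩ hs0 ⟨x, hx, hxs⟩
    apply hs0
    rw [Cube_interior] at hx hxs
    have h0 := hxs 0
    have h1 := hxs 1
    have h2 := hxs 2
    rw [Pi.sub_apply, hc0 z] at h0
    rw [Pi.sub_apply, hc1 z] at h1
    rw [Pi.sub_apply, hc2 z] at h2
    have e0 := int_zero (z := 2 * z 0) (hx 0).1 (hx 0).2 h0.1 h0.2 (by ring)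
    have e1 := int_zero (z := z 1) (hx 1).1 (hx 1).2 h1.1 h1.2 (by ring)
    have e2 := int_zero (z := z 2) (hx 2).1 (hx 2).2 h2.1 h2.2 (by ring)
    funext i
    fin_cases i
    · exact (hc0 z).trans (by rw [e0]; simp)
    · exact (hc1 z).trans (by rw [e1]; simp)
    · exact (hc2 z).trans (by rw [e2]; simp)
  · rintro s ⟨z, rfl⟩
    rw [Set.disjoint_left]
    intro X hX hX'
    have hpre : interior (tr (rfl' Cube ![2, 1, 1])
        (∑ i, (z i : ℝ) • (![![2, 0, 0], ![0, 1, 0], ![0, 0, 1]] : Fin 3 → V) i))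
        = mem (interior Cube) (true, ![2, 1, 1] +
          (∑ i, (z i : ℝ) • (![![2, 0, 0], ![0, 1, 0], ![0, 0, 1]] : Fin 3 → V) i)) := by
      rw [← mem_true, interior_mem]
    rw [hpre] at hX'
    obtain ⟨y, hy, hyX⟩ := hX'
    simp only [if_true] at hyX
    rw [Cube_interior] at hX hy
    have h0 : X 0 = - y 0 + (2 + ((2 * z 0 : ℤ) : ℝ)) := by
      rw [← hyX, Pi.add_apply, Pi.add_apply, hc0 z, Pi.neg_apply]
      rfl
    have h1 := hX 0
    have h2 := hy 0
    have := int_zero (z := 1 + 2 * z 0) (a := X 0) (b := 1 - y 0) h1.1 h1.2 (by linarith)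
      (by linarith) (by push_cast at h0 ⊢; linarith)
    omega

end Pool.Agent.K4H61.LS
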