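import Pool.Agent.TH219.DL.CnAff
import Pool.Agent.R167.CL.Space
import Pool.Agent.R167.CL.Plane
import Pool.Agent.R167.CL.AreaH

/-!
# Double lattice packings of ellipsoids and of cylinders
-/

set_option autoImplicit false

namespace Pool.Agent.K4H61.LS

open MeasureTheory Filter Topology
open scoped ENNReal
open Pool.Agent.TH219.DL
open Pool.Agent.H349R2.Tet
open Pool.Agent.R167.CL

/-- a double lattice packing of density at least `c` -/
def Dl (c : ℝ) (K : Set V) : Prop :=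
  ∃ (v : V) (b : Fin 3 → V), dt b ≠ 0 ∧ ENNReal.ofReal (c * |dt b|) ≤ 2 * volume K ∧
    (∀ s ∈ lat b, s ≠ 0 → ¬ Ov K s) ∧
    (∀ s ∈ lat b, Disjoint (interior K) (interior (tr (rfl' K v) s)))

theorem Dl_image {c : ℝ} {K : Set V} (h : Dl c K) (L : V ≃ₗ[ℝ] V) (p : V) :
    Dl c ((fun x => L x + p) '' K) := by
  obtain ⟨v, b, h1, h2, h3, h4⟩ := h
  have hdet : LinearMap.det L.toLinearMap ≠ 0 := (LinearEquiv.isUnit_det' L).ne_zero
  refine ⟨L v + p + p, fun i => L (b i), ?_, ?_, ?_, ?_⟩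
  · rw [pack_dt_image]; exact mul_ne_zero hdet h1
  · rw [pack_volume_image, pack_dt_image, abs_mul]
    have e : c * (|LinearMap.det L.toLinearMap| * |dt b|)
        = |LinearMap.det L.toLinearMap| * (c * |dt b|) := by ring
    rw [e, ENNReal.ofReal_mul (abs_nonneg _), mul_left_comm]
    gcongr
  · intro u hu hu0 hov
    obtain ⟨s, rfl⟩ := L.surjective u
    refine h3 s ((pack_lat_image L b s).1 hu) ?_ ((pack_Ov_image K L p s).1 hov)
    rintro rfl
    exact hu0 (map_zero L)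
  · intro u hu
    obtain ⟨s, rfl⟩ := L.surjective u
    have hs := (pack_lat_image L b s).1 hu
    have e : tr (rfl' ((fun x => L x + p) '' K) (L v + p + p)) (L s)
        = (fun x => L x + p) '' (tr (rfl' K v) s) := by
      unfold tr rfl'
      rw [Set.image_image, Set.image_image, Set.image_image, Set.image_image]
      apply Set.image_congr
      intro x _
      simp only [map_add, map_sub]
      abel
    rw [e, pack_interior_image, pack_interior_image, Set.disjoint_image_iff]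
    · exact h4 s hs
    · intro x y hxy
      exact L.injective (add_right_cancel (hxy : L x + p = L y + p))

theorem Dl_dLs {c : ℝ} (hc0 : 0 ≤ c) {K : Set V} (hKc : IsCompact K) (hc : Convex ℝ K)
    (h : Dl c K) : ENNReal.ofReal c ≤ dLs K := by
  obtain ⟨v, b, hb0, h3, h1, h2⟩ := h
  have hb1 : 0 < |dt b| := abs_pos.2 hb0
  have hli : LinearIndependent ℝ b := (dt_ne_zero_iff b).1 hb0
  have hle : den K (famLs v b) ≤ dLs K := by
    unfold dLs
    exact le_iSup_of_le v (le_iSup₂_of_le b ⟨hli, famLs_pack h1 h2⟩ le_rfl)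
  refine le_trans ?_ ((den_famLs K v b).trans hle)
  rw [dens_eq b hli _ (hKc.union (rfl_compact hKc v))]
  rw [ENNReal.le_div_iff_mul_le (Or.inl (by
    rw [ne_eq, ENNReal.ofReal_eq_zero, not_le]; exact hb1)) (Or.inl ENNReal.ofReal_ne_top)]
  have h5 : ENNReal.ofReal c * ENNReal.ofReal |dt b| ≤ 2 * volume K := by
    rw [← ENNReal.ofReal_mul hc0]
    exact h3
  refine h5.trans ?_
  have hd : Disjoint (interior K) (interior (rfl' K v)) := by
    have := h2 0 (pack_zero_mem b)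
    have e : tr (rfl' K v) 0 = rfl' K v := by unfold tr; simp
    rwa [e] at this
  have hrc : Convex ℝ (rfl' K v) := by
    rintro _ ⟨x, hx, rfl⟩ _ ⟨y, hy, rfl⟩ α β hα hβ hαβ
    refine ⟨α • x + β • y, hc hx hy hα hβ hαβ, ?_⟩
    have e : v = α • v + β • v := by rw [← add_smul, hαβ, one_smul]
    simp only [smul_sub]
    nth_rewrite 1 [e]
    abel
  calc 2 * volume K = volume (interior K) + volume (interior (rfl' K v)) := by
        rw [vol_int hc, vol_int hrc, vol_rfl hKc.measurableSet, two_mul]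
    _ = volume (interior K ∪ interior (rfl' K v)) :=
        (measure_union hd isOpen_interior.measurableSet).symm
    _ ≤ volume (K ∪ rfl' K v) :=
        measure_mono (Set.union_subset_union interior_subset interior_subset)

/-! ### balls -/

theorem Bl_eq_image (r : ℝ) (hr : 0 ≤ r) : Bl r = L3 '' Metric.closedBall 0 r := by
  ext x
  constructor
  · intro hx
    refine ⟨L3.symm x, ?_, by simp⟩
    rw [← pre_Bl hr]
    show WithLp.ofLp (L3.symm x) ∈ Bl r
    rw [← L3_apply, L3.apply_symm_apply]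
    exact hx
  · rintro ⟨y, hy, rfl⟩
    rw [← pre_Bl hr] at hy
    exact hy

theorem Bl_compact (r : ℝ) (hr : 0 ≤ r) : IsCompact (Bl r) := by
  rw [Bl_eq_image r hr]
  exact (isCompact_closedBall _ _).image L3.continuous

theorem Bl_convex (r : ℝ) (hr : 0 ≤ r) : Convex ℝ (Bl r) := by
  rw [Bl_eq_image r hr]
  exact (convex_closedBall _ _).linear_image L3.toLinearMap

theorem Bl_interior (r : ℝ) (hr : 0 < r) :
    interior (Bl r) = {x | x 0 ^ 2 + x 1 ^ 2 + x 2 ^ 2 < r ^ 2} := by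
  rw [Bl_eq_image r hr.le]
  have h1 : interior (L3 '' Metric.closedBall (0 : EuclideanSpace ℝ (Fin 3)) r)
      = L3 '' interior (Metric.closedBall (0 : EuclideanSpace ℝ (Fin 3)) r) :=
    (L3.toHomeomorph.image_interior _).symm
  rw [h1, interior_closedBall _ hr.ne']
  have h2 : ∀ y : EuclideanSpace ℝ (Fin 3), y ∈ Metric.ball (0 : EuclideanSpace ℝ (Fin 3)) r ↔
      y.ofLp 0 ^ 2 + y.ofLp 1 ^ 2 + y.ofLp 2 ^ 2 < r ^ 2 := by
    intro y
    rw [mem_ball_zero_iff, EuclideanSpace.norm_eq, Real.sqrt_lt' hr, Fin.sum_univ_three]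
    simp only [Real.norm_eq_abs, sq_abs]
  ext x
  constructor
  · rintro ⟨y, hy, rfl⟩
    exact (h2 y).1 hy
  · intro hx
    refine ⟨L3.symm x, ?_, by simp⟩
    rw [h2]
    have : (L3.symm x).ofLp = x := by rw [← L3_apply, L3.apply_symm_apply]
    rw [this]
    exact hx

theorem Bl_volume (r : ℝ) (hr : 0 ≤ r) :
    volume (Bl r) = ENNReal.ofReal (r ^ 3 * (Real.pi * 4 / 3)) := by
  rw [← vol_E (Bl_compact r hr).measurableSet.nullMeasurableSet, pre_Bl hr,
    EuclideanSpace.volume_closedBall_fin_three, ENNReal.ofReal_mul (by positivity),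
    ENNReal.ofReal_pow hr]

/-- two open balls of radius `r` whose centres are at distance at least `2 r` are disjoint -/
theorem far {r : ℝ} {x y c : V} (hx : x 0 ^ 2 + x 1 ^ 2 + x 2 ^ 2 < r ^ 2)
    (hy : y 0 ^ 2 + y 1 ^ 2 + y 2 ^ 2 < r ^ 2) (hc : ∀ i, x i - y i = c i)
    (h : 4 * r ^ 2 ≤ c 0 ^ 2 + c 1 ^ 2 + c 2 ^ 2) : False := by
  have h0 := hc 0
  have h1 := hc 1
  have h2 := hc 2
  rw [← h0, ← h1, ← h2] at h
  nlinarith [sq_nonneg (x 0 + y 0), sq_nonneg (x 1 + y 1), sq_nonneg (x 2 + y 2)]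

/-- the face centred cubic lattice is a double lattice -/
theorem Dl_ball : Dl (Real.pi * √2 / 6) (Bl (√2 / 2)) := by
  have hr : (0 : ℝ) < √2 / 2 := by positivity
  have hr2 : (√2 / 2) ^ 2 = (1 / 2 : ℝ) := by
    rw [div_pow, Real.sq_sqrt (by norm_num)]; norm_num
  have hint := Bl_interior (√2 / 2) hr
  rw [hr2] at hint
  have hmem : ∀ x : V, x ∈ interior (Bl (√2 / 2)) ↔ x 0 ^ 2 + x 1 ^ 2 + x 2 ^ 2 < 1 / 2 := by
    intro x; rw [hint]; rfl
  have hdt : dt ![![1, 1, 0], ![1, -1, 0], ![0, 0, 2]] = -4 := by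
    unfold dt
    rw [Matrix.det_fin_three]
    simp
    norm_num
  refine ⟨![1, 0, 1], ![![1, 1, 0], ![1, -1, 0], ![0, 0, 2]], by rw [hdt]; norm_num, ?_, ?_, ?_⟩
  · rw [hdt, Bl_volume _ hr.le]
    have e2 : (2 : ℝ≥0∞) = ENNReal.ofReal 2 := by simp
    rw [e2, ← ENNReal.ofReal_mul (by norm_num)]
    apply ENNReal.ofReal_le_ofReal
    have e3 : (√2 / 2) ^ 3 = √2 / 4 := by
      calc (√2 / 2) ^ 3 = (√2 / 2) ^ 2 * (√2 / 2) := by ring
        _ = √2 / 4 := by rw [hr2]; ring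
    rw [e3, abs_neg, abs_of_pos (by norm_num)]
    apply le_of_eq
    ring
  · rintro s ⟨z, rfl⟩ hs0 ⟨x, hx, hxs⟩
    rw [hmem] at hx hxs
    refine far (r := √2 / 2) (c := ∑ i, (z i : ℝ) • (![![1, 1, 0], ![1, -1, 0], ![0, 0, 2]] :
      Fin 3 → V) i) (by rw [hr2]; exact hx) (by rw [hr2]; exact hxs)
      (fun i => by simp only [Pi.sub_apply]; ring) ?_
    rw [hr2]
    have h0 : (∑ i, (z i : ℝ) • (![![1, 1, 0], ![1, -1, 0], ![0, 0, 2]] : Fin 3 → V) i) 0
        = (z 0 : ℝ) + z 1 := by simp [Fin.sum_univ_three]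
    have h1 : (∑ i, (z i : ℝ) • (![![1, 1, 0], ![1, -1, 0], ![0, 0, 2]] : Fin 3 → V) i) 1
        = (z 0 : ℝ) - z 1 := by simp [Fin.sum_univ_three]; ring
    have h2 : (∑ i, (z i : ℝ) • (![![1, 1, 0], ![1, -1, 0], ![0, 0, 2]] : Fin 3 → V) i) 2
        = 2 * (z 2 : ℝ) := by simp [Fin.sum_univ_three]; ring
    rw [h0, h1, h2]
    have hz : z 0 ≠ 0 ∨ z 1 ≠ 0 ∨ z 2 ≠ 0 := by
      by_contra hcon
      push Not at hcon
      apply hs0
      obtain ⟨a, b, c⟩ := hcon
      simp [Fin.sum_univ_three, a, b, c]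
    have hint2 : (2 : ℤ) ≤ (z 0 + z 1) ^ 2 + (z 0 - z 1) ^ 2 + (2 * z 2) ^ 2 := by
      have e : (z 0 + z 1) ^ 2 + (z 0 - z 1) ^ 2 + (2 * z 2) ^ 2
          = 2 * (z 0 ^ 2 + z 1 ^ 2 + 2 * z 2 ^ 2) := by ring
      rw [e]
      have h3 : 0 < z 0 ^ 2 + z 1 ^ 2 + 2 * z 2 ^ 2 := by
        rcases hz with h | h | h
        · have := sq_pos_of_ne_zero h; positivity
        · have := sq_pos_of_ne_zero h; positivity
        · have := sq_pos_of_ne_zero h; positivity
      linarith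
    have : ((2 : ℤ) : ℝ) ≤ (((z 0 + z 1) ^ 2 + (z 0 - z 1) ^ 2 + (2 * z 2) ^ 2 : ℤ) : ℝ) := by
      exact_mod_cast hint2
    push_cast at this
    linarith
  · rintro s ⟨z, rfl⟩
    rw [Set.disjoint_left]
    intro X hX hX'
    have hpre : interior (tr (rfl' (Bl (√2 / 2)) ![1, 0, 1])
        (∑ i, (z i : ℝ) • (![![1, 1, 0], ![1, -1, 0], ![0, 0, 2]] : Fin 3 → V) i))
        = mem (interior (Bl (√2 / 2))) (true, ![1, 0, 1] +
          (∑ i, (z i : ℝ) • (![![1, 1, 0], ![1, -1, 0], ![0, 0, 2]] : Fin 3 → V) i)) := by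
      rw [← mem_true, interior_mem]
    rw [hpre] at hX'
    obtain ⟨y, hy, hyX⟩ := hX'
    simp only [if_true] at hyX
    rw [hmem] at hX hy
    refine far (r := √2 / 2) (x := X) (y := fun i => - y i) (c := ![1, 0, 1] +
      ∑ i, (z i : ℝ) • (![![1, 1, 0], ![1, -1, 0], ![0, 0, 2]] :
      Fin 3 → V) i) (by rw [hr2]; exact hX) (by rw [hr2]; simpa using hy)
      (fun i => by rw [← hyX]; simp only [Pi.add_apply, Pi.neg_apply]; ring) ?_
    rw [hr2]
    have h0 : ((![1, 0, 1] : V) +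
        ∑ i, (z i : ℝ) • (![![1, 1, 0], ![1, -1, 0], ![0, 0, 2]] : Fin 3 → V) i) 0
        = 1 + z 0 + z 1 := by simp [Fin.sum_univ_three]; ring
    have h1 : ((![1, 0, 1] : V) +
        ∑ i, (z i : ℝ) • (![![1, 1, 0], ![1, -1, 0], ![0, 0, 2]] : Fin 3 → V) i) 1
        = (z 0 : ℝ) - z 1 := by simp [Fin.sum_univ_three]; ring
    have h2 : ((![1, 0, 1] : V) +
        ∑ i, (z i : ℝ) • (![![1, 1, 0], ![1, -1, 0], ![0, 0, 2]] : Fin 3 → V) i) 2
        = 1 + 2 * (z 2 : ℝ) := by simp [Fin.sum_univ_three]; ring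
    rw [h0, h1, h2]
    have hint2 : (2 : ℤ) ≤ (1 + z 0 + z 1) ^ 2 + (z 0 - z 1) ^ 2 + (1 + 2 * z 2) ^ 2 := by
      have ha : 1 ≤ (1 + 2 * z 2) ^ 2 := by
        have : (1 + 2 * z 2) ≠ 0 := by omega
        have := sq_pos_of_ne_zero this
        linarith
      have hb : 1 ≤ (1 + z 0 + z 1) ^ 2 + (z 0 - z 1) ^ 2 := by
        by_cases h : 1 + z 0 + z 1 = 0
        · have h' : z 0 - z 1 ≠ 0 := by omega
          have := sq_pos_of_ne_zero h'
          nlinarith [sq_nonneg (1 + z 0 + z 1)]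
        · have := sq_pos_of_ne_zero h
          nlinarith [sq_nonneg (z 0 - z 1)]
      linarith
    have : ((2 : ℤ) : ℝ) ≤ (((1 + z 0 + z 1) ^ 2 + (z 0 - z 1) ^ 2 + (1 + 2 * z 2) ^ 2 : ℤ) : ℝ) := by
      exact_mod_cast hint2
    push_cast at this
    linarith

/-! ### cylinders -/

/-- the cylinder with base `D` and height one -/
def Cy (D : Set (Fin 2 → ℝ)) : Set V := {x | 0 ≤ x 0 ∧ x 0 ≤ 1 ∧ pr x ∈ D}

theorem Cy_compact {D : Set (Fin 2 → ℝ)} (hD : IsCompact D) : IsCompact (Cy D) := by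
  have : Cy D = (fun p : ℝ × (Fin 2 → ℝ) => cs p.1 p.2) '' (Set.Icc 0 1 ×ˢ D) := by
    ext x
    constructor
    · rintro ⟨h0, h1, h2⟩
      exact ⟨(x 0, pr x), ⟨⟨h0, h1⟩, h2⟩, cs_pr x⟩
    · rintro ⟨⟨t, y⟩, ⟨⟨h0, h1⟩, h2⟩, rfl⟩
      refine ⟨h0, h1, ?_⟩
      show pr (cs t y) ∈ D
      rw [pr_cs]; exact h2
  rw [this]
  exact (isCompact_Icc.prod hD).image cs_cont

theorem Cy_convex {D : Set (Fin 2 → ℝ)} (hD : Convex ℝ D) : Convex ℝ (Cy D) := by
  rintro x ⟨hx0, hx1, hx⟩ y ⟨hy0, hy1, hy⟩ a b ha hb hab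
  refine ⟨?_, ?_, ?_⟩
  · simp only [Pi.add_apply, Pi.smul_apply, smul_eq_mul]; positivity
  · simp only [Pi.add_apply, Pi.smul_apply, smul_eq_mul]
    nlinarith
  · have : pr (a • x + b • y) = a • pr x + b • pr y := by
      funext i; fin_cases i <;> simp
    rw [this]
    exact hD hx hy ha hb hab

theorem Cy_interior {D : Set (Fin 2 → ℝ)} (hD : (interior D).Nonempty) :
    (interior (Cy D)).Nonempty := by
  obtain ⟨y, hy⟩ := hD
  refine ⟨cs (1 / 2) y, ?_⟩
  rw [mem_interior]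
  refine ⟨{x : V | 0 < x 0} ∩ {x : V | x 0 < 1} ∩ pr ⁻¹' (interior D), ?_, ?_, ?_⟩
  · rintro x ⟨⟨h0, h1⟩, h2⟩
    exact ⟨le_of_lt h0, le_of_lt h1, interior_subset h2⟩
  · exact ((isOpen_lt continuous_const (continuous_apply 0)).inter
      (isOpen_lt (continuous_apply 0) continuous_const)).inter
      (isOpen_interior.preimage pr_cont)
  · refine ⟨⟨?_, ?_⟩, ?_⟩
    · show (0 : ℝ) < 1 / 2; norm_num
    · show (1 / 2 : ℝ) < 1; norm_num
    · show pr (cs (1 / 2) y) ∈ interior D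
      rw [pr_cs]; exact hy

theorem Cy_volume {D : Set (Fin 2 → ℝ)} (hD : IsCompact D) : volume (Cy D) = volume D := by
  rw [vol_slices (Cy_compact hD).measurableSet]
  have h : ∀ x : Fin 2 → ℝ, volume {t : ℝ | cs t x ∈ Cy D} = D.indicator (fun _ => 1) x := by
    intro x
    by_cases hx : x ∈ D
    · have e : {t : ℝ | cs t x ∈ Cy D} = Set.Icc 0 1 := by
        ext t
        constructor
        · rintro ⟨h0, h1, -⟩; exact ⟨h0, h1⟩
        · rintro ⟨h0, h1⟩
          refine ⟨h0, h1, ?_⟩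
          rw [pr_cs]; exact hx
      rw [e, Set.indicator_of_mem hx, Real.volume_Icc]; simp
    · have e : {t : ℝ | cs t x ∈ Cy D} = ∅ := by
        ext t
        constructor
        · rintro ⟨-, -, h⟩
          rw [pr_cs] at h
          exact absurd h hx
        · intro h; exact absurd h (Set.notMem_empty _)
      rw [e, Set.indicator_of_notMem hx, measure_empty]
  rw [lintegral_congr h, lintegral_indicator hD.measurableSet]
  simp

theorem Cy_shadow (D : Set (Fin 2 → ℝ)) : G (Cy D) 0 = D := by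
  rw [G_zero]
  ext x
  constructor
  · rintro ⟨y, ⟨-, -, h⟩, rfl⟩; exact h
  · intro hx
    refine ⟨cs 0 x, ⟨le_rfl, zero_le_one, ?_⟩, pr_cs 0 x⟩
    rw [pr_cs]; exact hx

theorem Dl_cyl {D : Set (Fin 2 → ℝ)} (hDc : IsCompact D) (hD : Convex ℝ D)
    (hne : (interior D).Nonempty) : Dl (3 / 4) (Cy D) := by
  obtain ⟨u, w, y, h1, h2, h3, h4⟩ := t_PLANE t_AREA D hDc hD hne
  obtain ⟨v, b, hb1, hb2, hb3⟩ := t_SPACE (Cy D) (Cy_compact hDc) (Cy_convex hD)
    (Cy_interior hne) 1 one_pos (fun x c hc ⟨t, ht1, ht2⟩ => by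
      have e1 : 0 ≤ t := ht1.1
      have e2 : t + c ≤ 1 := ht2.2.1
      linarith) u w y h1 (by rw [Cy_shadow]; exact h3) (by rw [Cy_shadow]; exact h4)
  refine ⟨v, b, ?_, ?_, hb2, hb3⟩
  · rw [hb1, one_mul]; exact h1.ne'
  · rw [hb1, one_mul, abs_of_pos h1, Cy_volume hDc]
    calc ENNReal.ofReal (3 / 4 * (u 0 * w 1 - u 1 * w 0))
        = ENNReal.ofReal (3 / 4) * ENNReal.ofReal (u 0 * w 1 - u 1 * w 0) :=
          ENNReal.ofReal_mul (by norm_num)
      _ ≤ ENNReal.ofReal (3 / 4) * (ENNReal.ofReal (8 / 3) * volume D) := by gcongr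
      _ = 2 * volume D := by
          rw [← mul_assoc, ← ENNReal.ofReal_mul (by norm_num)]
          norm_num

end Pool.Agent.K4H61.LS
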